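import Pool.Agent.V11307.S7.Seven
import Pool.Agent.V11307.RI.Strip

set_option autoImplicit false

/-!
The recurrence sequence `a_1 = 2`, `(2n+1)^3 a_n = 32 n^3 a_{n-1} + (21n^3+22n^2+8n+1) C(2n-1,n)^4`.
-/

namespace V11307.S7

open Finset Nat V11307.RI

/-- the partial sums -/
def SF (n : ℕ) : ℤ := ∑ k ∈ range n, (21 * (k : ℤ) ^ 3 + 22 * (k : ℤ) ^ 2 + 8 * k + 1) * ((2 * k).choose k : ℤ) ^ 7 *
  256 ^ (n - 1 - k)

theorem SF_succ (n : ℕ) : SF (n + 1) = 256 * SF n + (21 * (n : ℤ) ^ 3 + 22 * (n : ℤ) ^ 2 + 8 * n + 1) *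
    ((2 * n).choose n : ℤ) ^ 7 := by
  rw [SF, sum_range_succ, SF, mul_sum]
  congr 1
  · refine sum_congr rfl fun k hk => ?_
    rw [mem_range] at hk
    rw [show n + 1 - 1 - k = (n - 1 - k) + 1 by omega, pow_succ]
    ring
  · simp

theorem SF_dvd {n : ℕ} (hn : 1 < n) : 2 * (n : ℤ) ^ 3 * ((2 * n).choose n : ℤ) ^ 3 ∣ SF n := by
  refine final (κ := fun x => 21 * x ^ 3 + 22 * x ^ 2 + 8 * x + 1) (m := 256) (by norm_num) (S := SF)
    (fun n => by rw [SF_succ]) (by norm_num [SF, sum_range_succ]) (fun n => ?_) hn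
  have h1 := closedF (S := fun n => (SF n : ℚ)) (by simp [SF]) (fun n => by
    rw [SF_succ]; unfold c; push_cast; ring) n
  obtain ⟨z, hz⟩ := sum_int (g := fun j => 4 * gF n j) (fun j => gF_int n j) (range (n + 1))
  refine ⟨z, ?_⟩
  rw [← hz, ← mul_sum]
  exact congrArg (fun x => 4 * x) h1

theorem SF_pos (n : ℕ) : 0 < SF (n + 1) := by
  induction n with
  | zero => norm_num [SF]
  | succ n ih =>
    rw [SF_succ]
    have h : (0 : ℤ) < ((2 * (n + 1)).choose (n + 1) : ℤ) := by exact_mod_cast choose_pos' (n + 1)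
    positivity

/-- `C(2n,n) = 2 C(2n-1,n)` -/
theorem half (n : ℕ) : (2 * (n + 1)).choose (n + 1) = 2 * (2 * (n + 1) - 1).choose (n + 1) := by
  rw [show 2 * (n + 1) - 1 = 2 * n + 1 by omega, show 2 * (n + 1) = 2 * n + 1 + 1 by ring, Nat.choose_succ_succ,
    Nat.choose_symm_half]
  ring

theorem rec_eq {a : ℕ → ℚ} (h1 : a 1 = 2)
    (h : ∀ n : ℕ, 2 ≤ n → (2 * (n : ℚ) + 1) ^ 3 * a n = 32 * (n : ℚ) ^ 3 * a (n - 1) +
      (21 * (n : ℚ) ^ 3 + 22 * (n : ℚ) ^ 2 + 8 * n + 1) * ((2 * n - 1).choose n : ℚ) ^ 4) (n : ℕ) :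
    16 * (2 * ((n + 1 : ℕ) : ℚ) + 1) ^ 3 * c (n + 1) ^ 3 * a (n + 1) = SF (n + 2) := by
  induction n with
  | zero =>
    rw [h1]
    norm_num [SF, c, sum_range_succ]
  | succ n ih =>
    have h2 := h (n + 2) (by omega)
    have e1 : c (n + 2) = 2 * ((2 * (n + 2) - 1).choose (n + 2) : ℚ) := by
      unfold c
      exact_mod_cast half (n + 1)
    have e2 : c (n + 2) = 2 * (2 * ((n + 1 : ℕ) : ℚ) + 1) * c (n + 1) / (((n + 1 : ℕ) : ℚ) + 1) := c_succ (n + 1)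
    have hn : (((n + 1 : ℕ) : ℚ) + 1) ≠ 0 := by positivity
    rw [eq_div_iff hn] at e2
    rw [show n + 2 - 1 = n + 1 by omega] at h2
    have e3 := SF_succ (n + 2)
    have e4 : (SF (n + 2 + 1) : ℚ) = 256 * SF (n + 2) + (21 * ((n + 2 : ℕ) : ℚ) ^ 3 + 22 * ((n + 2 : ℕ) : ℚ) ^ 2 +
        8 * ((n + 2 : ℕ) : ℚ) + 1) * c (n + 2) ^ 7 := by
      rw [e3]; unfold c; push_cast; ring
    rw [show n + 1 + 1 = n + 2 by ring, show n + 1 + 2 = n + 2 + 1 by ring, e4, ← ih]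
    have e5 : (c (n + 2) * (((n + 1 : ℕ) : ℚ) + 1)) ^ 3 = (2 * (2 * ((n + 1 : ℕ) : ℚ) + 1) * c (n + 1)) ^ 3 := by rw [e2]
    have e6 : c (n + 2) ^ 4 = 16 * ((2 * (n + 2) - 1).choose (n + 2) : ℚ) ^ 4 := by rw [e1]; ring
    push_cast at e5 h2 ⊢
    linear_combination 16 * c (n + 2) ^ 3 * h2 + 512 * a (n + 1) * e5 -
      (21 * ((n : ℚ) + 2) ^ 3 + 22 * ((n : ℚ) + 2) ^ 2 + 8 * ((n : ℚ) + 2) + 1) * c (n + 2) ^ 3 * e6

theorem a_int {a : ℕ → ℚ} (h1 : a 1 = 2)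
    (h : ∀ n : ℕ, 2 ≤ n → (2 * (n : ℚ) + 1) ^ 3 * a n = 32 * (n : ℚ) ^ 3 * a (n - 1) +
      (21 * (n : ℚ) ^ 3 + 22 * (n : ℚ) ^ 2 + 8 * n + 1) * ((2 * n - 1).choose n : ℚ) ^ 4) (n : ℕ) (hn : 1 ≤ n) :
    ∃ z : ℤ, 0 < z ∧ a n = z := by
  obtain ⟨k, rfl⟩ : ∃ k, n = k + 1 := ⟨n - 1, by omega⟩
  have h2 := rec_eq h1 h k
  obtain ⟨z, hz⟩ := SF_dvd (n := k + 2) (by omega)
  have hc : c (k + 1) ≠ 0 := by
    unfold c
    exact_mod_cast (choose_pos' (k + 1)).ne'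
  have e2 : c (k + 2) = 2 * (2 * ((k + 1 : ℕ) : ℚ) + 1) * c (k + 1) / (((k + 1 : ℕ) : ℚ) + 1) := c_succ (k + 1)
  have hn : (((k + 1 : ℕ) : ℚ) + 1) ≠ 0 := by positivity
  rw [eq_div_iff hn] at e2
  have hK : (2 * ((k + 1 : ℕ) : ℚ) + 1) ≠ 0 := by positivity
  have hz' : (SF (k + 2) : ℚ) = 2 * ((k + 2 : ℕ) : ℚ) ^ 3 * c (k + 2) ^ 3 * z := by
    rw [hz]; unfold c; push_cast; ring
  have e5 : (c (k + 2) * (((k + 1 : ℕ) : ℚ) + 1)) ^ 3 = (2 * (2 * ((k + 1 : ℕ) : ℚ) + 1) * c (k + 1)) ^ 3 := by rw [e2]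
  have e7 : 16 * (2 * ((k + 1 : ℕ) : ℚ) + 1) ^ 3 * c (k + 1) ^ 3 * (a (k + 1) - z) = 0 := by
    have : (SF (k + 2) : ℚ) = 16 * (2 * ((k + 1 : ℕ) : ℚ) + 1) ^ 3 * c (k + 1) ^ 3 * z := by
      rw [hz']
      push_cast at e5 ⊢
      linear_combination 2 * (z : ℚ) * e5
    rw [mul_sub, h2, this]; ring
  have hne : 16 * (2 * ((k + 1 : ℕ) : ℚ) + 1) ^ 3 * c (k + 1) ^ 3 ≠ 0 := by positivity
  have hza : a (k + 1) = z := by
    have := (mul_eq_zero.mp e7).resolve_left hne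
    linarith
  refine ⟨z, ?_, hza⟩
  have hp : (0 : ℚ) < SF (k + 2) := by exact_mod_cast SF_pos (k + 1)
  rw [← h2, hza] at hp
  have hcp : 0 < c (k + 1) := by
    unfold c
    exact_mod_cast choose_pos' (k + 1)
  have : (0 : ℚ) < z := by
    by_contra hcon
    push Not at hcon
    have : 16 * (2 * ((k + 1 : ℕ) : ℚ) + 1) ^ 3 * c (k + 1) ^ 3 * (z : ℚ) ≤ 0 :=
      mul_nonpos_of_nonneg_of_nonpos (by positivity) hcon
    linarith
  exact_mod_cast this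

/-! ### parity -/

theorem odd_row (t k : ℕ) (hk : k < 2 ^ t) : Odd ((2 ^ t - 1).choose k) := by
  induction k with
  | zero => simp
  | succ k ih =>
    have h1 := ih (by omega)
    have h2 : 2 ∣ (2 ^ t).choose (k + 1) := Nat.prime_two.dvd_choose_pow (by omega) (by omega)
    have h3 : (2 ^ t).choose (k + 1) = (2 ^ t - 1).choose k + (2 ^ t - 1).choose (k + 1) := by
      have : 2 ^ t = 2 ^ t - 1 + 1 := by
        have := Nat.one_le_two_pow (n := t)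
        omega
      conv_lhs => rw [this, Nat.choose_succ_succ]
    rw [h3] at h2
    rw [Nat.odd_iff] at h1 ⊢
    omega

theorem parity_choose {n : ℕ} (hn : 1 ≤ n) : Odd ((2 * n - 1).choose n) ↔ ∃ k, n = 2 ^ k := by
  constructor
  · intro ho
    by_contra hcon
    push Not at hcon
    have h4 := four_dvd_choose (m := n) (by omega) hcon
    obtain ⟨m, rfl⟩ : ∃ m, n = m + 1 := ⟨n - 1, by omega⟩
    rw [half] at h4
    rw [Nat.odd_iff] at ho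
    omega
  · rintro ⟨k, rfl⟩
    have := odd_row (k + 1) (2 ^ k) (by rw [pow_succ]; omega)
    rw [show 2 * 2 ^ k - 1 = 2 ^ (k + 1) - 1 by rw [pow_succ]; ring_nf]
    exact this

theorem a_odd {a : ℕ → ℚ} (h1 : a 1 = 2)
    (h : ∀ n : ℕ, 2 ≤ n → (2 * (n : ℚ) + 1) ^ 3 * a n = 32 * (n : ℚ) ^ 3 * a (n - 1) +
      (21 * (n : ℚ) ^ 3 + 22 * (n : ℚ) ^ 2 + 8 * n + 1) * ((2 * n - 1).choose n : ℚ) ^ 4) (n : ℕ) (hn : 1 ≤ n) :
    (∃ z : ℤ, Odd z ∧ a n = z) ↔ ∃ k : ℕ, 1 ≤ k ∧ n = 2 ^ k := by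
  rcases Nat.lt_or_ge n 2 with hn2 | hn2
  · have : n = 1 := by omega
    subst this
    constructor
    · rintro ⟨z, hz, e⟩
      rw [h1] at e
      have : z = 2 := by exact_mod_cast e.symm
      rw [this] at hz
      exact absurd hz (by decide)
    · rintro ⟨k, hk, e⟩
      obtain ⟨j, rfl⟩ : ∃ j, k = j + 1 := ⟨k - 1, by omega⟩
      rw [pow_succ] at e
      omega
  · obtain ⟨x, -, hx⟩ := a_int h1 h n hn
    obtain ⟨y, -, hy⟩ := a_int h1 h (n - 1) (by omega)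
    have h2 := h n hn2
    rw [hx, hy] at h2
    have h3 : (2 * (n : ℤ) + 1) ^ 3 * x = 32 * (n : ℤ) ^ 3 * y +
      (21 * (n : ℤ) ^ 3 + 22 * (n : ℤ) ^ 2 + 8 * n + 1) * ((2 * n - 1).choose n : ℤ) ^ 4 := by exact_mod_cast h2
    have h4 : Odd x ↔ Odd (21 * (n : ℤ) ^ 3 + 22 * (n : ℤ) ^ 2 + 8 * n + 1) ∧ Odd ((2 * n - 1).choose n : ℤ) := by
      have e1 : Odd ((2 * (n : ℤ) + 1) ^ 3 * x) ↔ Odd x := by
        rw [Int.odd_mul]
        exact ⟨fun h => h.2, fun h => ⟨Odd.pow ⟨n, rfl⟩, h⟩⟩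
      have e2 : Even (32 * (n : ℤ) ^ 3 * y) := ⟨16 * (n : ℤ) ^ 3 * y, by ring⟩
      rw [← e1, h3, Int.odd_add']
      have e3 : Odd ((21 * (n : ℤ) ^ 3 + 22 * (n : ℤ) ^ 2 + 8 * n + 1) * ((2 * n - 1).choose n : ℤ) ^ 4) ↔
          Odd (21 * (n : ℤ) ^ 3 + 22 * (n : ℤ) ^ 2 + 8 * n + 1) ∧ Odd ((2 * n - 1).choose n : ℤ) := by
        rw [Int.odd_mul, Int.odd_pow' (by norm_num : (4 : ℕ) ≠ 0)]
      rw [e3]
      exact ⟨fun h => h.mpr e2, fun h => ⟨fun _ => e2, fun _ => h⟩⟩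
    have h5 : Odd (21 * (n : ℤ) ^ 3 + 22 * (n : ℤ) ^ 2 + 8 * n + 1) ↔ Even n := by
      constructor
      · intro h6
        by_contra h7
        rw [Nat.not_even_iff_odd] at h7
        obtain ⟨m, rfl⟩ := h7
        rw [← Int.not_even_iff_odd] at h6
        exact h6 ⟨84 * (m : ℤ) ^ 3 + 170 * (m : ℤ) ^ 2 + 115 * m + 26, by push_cast; ring⟩
      · rintro ⟨m, rfl⟩
        exact ⟨84 * (m : ℤ) ^ 3 + 44 * (m : ℤ) ^ 2 + 8 * m, by push_cast; ring⟩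
    have h6 : Odd ((2 * n - 1).choose n : ℤ) ↔ ∃ k, n = 2 ^ k := by
      rw [← parity_choose hn]
      exact Int.odd_coe_nat _
    constructor
    · rintro ⟨z, hz, e⟩
      rw [hx] at e
      have : x = z := by exact_mod_cast e
      rw [← this, h4, h5, h6] at hz
      obtain ⟨he, k, hk⟩ := hz
      refine ⟨k, ?_, hk⟩
      rcases Nat.eq_zero_or_pos k with h7 | h7
      · rw [h7] at hk
        omega
      · exact h7
    · rintro ⟨k, hk, e⟩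
      refine ⟨x, ?_, hx⟩
      rw [h4, h5, h6]
      refine ⟨?_, k, e⟩
      rw [e]
      exact (Nat.even_pow.mpr ⟨even_two, by omega⟩)

end V11307.S7
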