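import Pool.Agent.V11307.RI.Neg

set_option autoImplicit false

/-!
Closed forms for the partial sums of `(21k^3+22k^2+8k+1) C(2k,k)^7/256^k` and
`(168k^3+76k^2+14k+1) C(2k,k)^7/2^(20k)`.
-/

namespace V11307.S7

open Finset Nat V11307.RI

/-- the central coefficient -/
def c (n : ℕ) : ℚ := ((2 * n).choose n : ℚ)

theorem c_succ (n : ℕ) : c (n + 1) = 2 * (2 * n + 1) * c n / (n + 1) := by
  have hn : ((n : ℚ) + 1) ≠ 0 := by positivity
  rw [eq_div_iff hn]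
  have := central n
  have h' : (((n + 1) * (2 * (n + 1)).choose (n + 1) : ℕ) : ℚ) = ((2 * (2 * n + 1) * (2 * n).choose n : ℕ) : ℚ) := by
    rw [this]
  unfold c
  push_cast at h'
  linear_combination h'

/-- `C(N,k)` lowered in `N` -/
theorem chA (N k : ℕ) : ((N.choose k : ℕ) : ℚ) = ((N + 1).choose k : ℕ) * ((N : ℚ) + 1 - k) / ((N : ℚ) + 1) := by
  have hN : ((N : ℚ) + 1) ≠ 0 := by positivity
  rw [eq_div_iff hN]
  rcases Nat.lt_or_ge (N + 1) k with h | h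
  · rw [Nat.choose_eq_zero_of_lt (by omega), Nat.choose_eq_zero_of_lt h]; simp
  · have h1 := Nat.choose_mul_succ_eq N k
    have h2 : ((N.choose k * (N + 1) : ℕ) : ℚ) = (((N + 1).choose k * (N + 1 - k) : ℕ) : ℚ) := by rw [h1]
    rw [Nat.cast_mul, Nat.cast_mul, Nat.cast_sub h] at h2
    push_cast at h2
    linear_combination h2

/-- `C(N,k)` lowered in both -/
theorem chB (N k : ℕ) : ((N.choose k : ℕ) : ℚ) = ((N + 1).choose (k + 1) : ℕ) * ((k : ℚ) + 1) / ((N : ℚ) + 1) := by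
  have hN : ((N : ℚ) + 1) ≠ 0 := by positivity
  rw [eq_div_iff hN]
  have h1 := Nat.add_one_mul_choose_eq N k
  have h2 : (((N + 1) * N.choose k : ℕ) : ℚ) = (((N + 1).choose (k + 1) * (k + 1) : ℕ) : ℚ) := by rw [h1]
  push_cast at h2
  linear_combination h2

theorem Hq_mid (n : ℕ) : Hq (2 * n) n = (-1) ^ n * c n := by
  unfold c
  induction n with
  | zero => simp [Hq_zero]
  | succ n ih =>
    have hn : ((n : ℚ) + 1) ≠ 0 := by positivity
    have hn2 : (2 * (n : ℚ) + 1) ≠ 0 := by positivity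
    have hn3 : (2 * (n : ℚ) + 1 + 1) ≠ 0 := by positivity
    rw [show 2 * (n + 1) = 2 * n + 1 + 1 by ring, Hq_succ', Hq_succ, ih]
    have hc : ((2 * n + 1 + 1).choose (n + 1) : ℚ) = 2 * (2 * n + 1) * ((2 * n).choose n : ℚ) / (n + 1) := by
      have := c_succ n
      unfold c at this
      rw [show 2 * (n + 1) = 2 * n + 1 + 1 by ring] at this
      exact this
    rw [hc, pow_succ]
    push_cast
    field_simp
    ring

/-! ### the sum with `2^20` -/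

def gG (n j : ℕ) : ℚ := (2 * n + 1) ^ 2 * c n ^ 3 * (2 * j + 1) * ((2 * n + 1).choose (n + 1 + j) : ℚ) ^ 2 *
  Hq (2 * n) (n + 1 + 2 * j) ^ 2

def fG (n j : ℕ) : ℚ := (6 * n + 1) * (28 * (n : ℚ) ^ 2 + 8 * n + 1 - 16 * (j : ℚ) ^ 2) * c n ^ 3 *
  ((2 * n).choose (n + j) : ℚ) ^ 2 * Hq (2 * n) (n + 2 * j) ^ 2

theorem wzG (n j : ℕ) : gG (n + 1) j - 2 ^ 20 * gG n j = fG (n + 1) j - fG (n + 1) (j + 1) := by
  have a1 : ((2 * (n + 1)).choose (n + 1 + j) : ℚ) =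
      ((2 * (n + 1) + 1).choose (n + 1 + 1 + j) : ℚ) * (n + 2 + j) / (2 * n + 3) := by
    have := chB (2 * (n + 1)) (n + 1 + j)
    rw [this, show n + 1 + j + 1 = n + 1 + 1 + j by ring]
    push_cast
    congr 1 <;> ring
  have a2 : ((2 * (n + 1)).choose (n + 1 + (j + 1)) : ℚ) =
      ((2 * (n + 1) + 1).choose (n + 1 + 1 + j) : ℚ) * (n + 1 - j) / (2 * n + 3) := by
    have := chA (2 * (n + 1)) (n + 1 + (j + 1))
    rw [this, show n + 1 + (j + 1) = n + 1 + 1 + j by ring]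
    push_cast
    congr 1 <;> ring
  have a3 : ((2 * n + 1).choose (n + 1 + j) : ℚ) =
      ((2 * (n + 1) + 1).choose (n + 1 + 1 + j) : ℚ) * (n + 2 + j) / (2 * n + 3) * (n + 1 - j) / (2 * n + 2) := by
    have := chA (2 * n + 1) (n + 1 + j)
    rw [this, show 2 * n + 1 + 1 = 2 * (n + 1) by ring, a1]
    push_cast
    congr 1
    · ring
    · ring
  have h1 : Hq (2 * (n + 1)) (n + 1 + 2 * j) = Hq (2 * n) (n + 1 + 2 * j) * (2 * (4 * j + 1 - 2 * n)) / (2 * n + 1) *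
      (2 * (4 * j - 1 - 2 * n)) / (2 * n + 2) := by
    rw [show 2 * (n + 1) = 2 * n + 1 + 1 by ring, Hq_succ, Hq_succ]
    push_cast
    congr 1
    · congr 1
      · congr 1
        ring
      · ring
    · ring
  have h2 : Hq (2 * (n + 1)) (n + 1 + 1 + 2 * j) = Hq (2 * n) (n + 1 + 2 * j) * (2 * (4 * j + 1 - 2 * n)) / (2 * n + 1) *
      (2 * (2 * n + 4 * j + 3)) / (2 * n + 2) := by
    rw [show 2 * (n + 1) = 2 * n + 1 + 1 by ring, show n + 1 + 1 + 2 * j = n + 1 + 2 * j + 1 by ring, Hq_succ', Hq_succ]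
    push_cast
    congr 1
    · congr 1
      · congr 1
        ring
      · ring
    · ring
  have h3 : Hq (2 * (n + 1)) (n + 1 + 2 * (j + 1)) = Hq (2 * n) (n + 1 + 2 * j) * (2 * (2 * n + 4 * j + 3)) / (2 * n + 1) *
      (2 * (2 * n + 4 * j + 5)) / (2 * n + 2) := by
    rw [show 2 * (n + 1) = 2 * n + 1 + 1 by ring, show n + 1 + 2 * (j + 1) = n + 1 + 2 * j + 1 + 1 by ring, Hq_succ', Hq_succ']
    push_cast
    congr 1
    · congr 1
      · congr 1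
        ring
      · ring
    · ring
  have hn : ((n : ℚ) + 1) ≠ 0 := by positivity
  have hn1 : (2 * (n : ℚ) + 1) ≠ 0 := by positivity
  have hn2 : (2 * (n : ℚ) + 2) ≠ 0 := by positivity
  have hn3 : (2 * (n : ℚ) + 3) ≠ 0 := by positivity
  unfold gG fG
  rw [c_succ, a1, a2, a3, h1, h2, h3]
  generalize Hq (2 * n) (n + 1 + 2 * j) = Y
  generalize (((2 * (n + 1) + 1).choose (n + 1 + 1 + j) : ℕ) : ℚ) = Z
  generalize c n = C
  push_cast
  field_simp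
  ring

/-! ### the sum with `256` -/

def gF (n j : ℕ) : ℚ := (2 * n + 1) ^ 3 * c n ^ 3 / (4 * (n + 1)) * (2 * j + 1) *
  ((2 * n + 2).choose (n + 2 + 2 * j) : ℚ) ^ 2 * Hq (2 * n + 1) (n + 1 + j) ^ 2

def fF (n j : ℕ) : ℚ := (3 * n + 1) * (7 * (n : ℚ) ^ 2 + 5 * n + 1 - 4 * (j : ℚ) ^ 2) * c n ^ 3 *
  ((2 * n).choose (n + 2 * j) : ℚ) ^ 2 * Hq (2 * n) (n + j) ^ 2

theorem wzF (n j : ℕ) : gF (n + 1) j - 256 * gF n j = fF (n + 1) j - fF (n + 1) (j + 1) := by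
  have b1 : ((2 * n + 3).choose (n + 2 + 2 * j) : ℚ) =
      ((2 * (n + 1) + 2).choose (n + 1 + 2 + 2 * j) : ℚ) * (n + 3 + 2 * j) / (2 * n + 4) := by
    have := chB (2 * n + 3) (n + 2 + 2 * j)
    rw [this, show 2 * n + 3 + 1 = 2 * (n + 1) + 2 by ring, show n + 2 + 2 * j + 1 = n + 1 + 2 + 2 * j by ring]
    push_cast
    congr 1 <;> ring
  have b2 : ((2 * n + 3).choose (n + 3 + 2 * j) : ℚ) =
      ((2 * (n + 1) + 2).choose (n + 1 + 2 + 2 * j) : ℚ) * (n + 1 - 2 * j) / (2 * n + 4) := by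
    have := chA (2 * n + 3) (n + 3 + 2 * j)
    rw [this, show 2 * n + 3 + 1 = 2 * (n + 1) + 2 by ring, show n + 3 + 2 * j = n + 1 + 2 + 2 * j by ring]
    push_cast
    congr 1 <;> ring
  have a1 : ((2 * (n + 1)).choose (n + 1 + 2 * j) : ℚ) =
      ((2 * (n + 1) + 2).choose (n + 1 + 2 + 2 * j) : ℚ) * (n + 3 + 2 * j) / (2 * n + 4) * (n + 2 + 2 * j) / (2 * n + 3) := by
    have := chB (2 * (n + 1)) (n + 1 + 2 * j)
    rw [this, show 2 * (n + 1) + 1 = 2 * n + 3 by ring, show n + 1 + 2 * j + 1 = n + 2 + 2 * j by ring, b1]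
    push_cast
    congr 1
    · ring
    · ring
  have a2 : ((2 * n + 2).choose (n + 2 + 2 * j) : ℚ) =
      ((2 * (n + 1) + 2).choose (n + 1 + 2 + 2 * j) : ℚ) * (n + 3 + 2 * j) / (2 * n + 4) * (n + 1 - 2 * j) / (2 * n + 3) := by
    have := chA (2 * n + 2) (n + 2 + 2 * j)
    rw [this, show 2 * n + 2 + 1 = 2 * n + 3 by ring, b1]
    push_cast
    congr 1
    · ring
    · ring
  have a3 : ((2 * (n + 1)).choose (n + 1 + 2 * (j + 1)) : ℚ) =
      ((2 * (n + 1) + 2).choose (n + 1 + 2 + 2 * j) : ℚ) * (n + 1 - 2 * j) / (2 * n + 4) * (n - 2 * j) / (2 * n + 3) := by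
    have := chA (2 * (n + 1)) (n + 1 + 2 * (j + 1))
    rw [this, show 2 * (n + 1) + 1 = 2 * n + 3 by ring, show n + 1 + 2 * (j + 1) = n + 3 + 2 * j by ring, b2]
    push_cast
    congr 1
    · ring
    · ring
  have h1 : Hq (2 * (n + 1)) (n + 1 + j) = Hq (2 * n + 1) (n + 1 + j) * (2 * (2 * j - 2 * n - 1)) / (2 * n + 2) := by
    rw [show 2 * (n + 1) = 2 * n + 1 + 1 by ring, Hq_succ]
    push_cast
    congr 1
    · congr 1
      ring
    · ring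
  have h2 : Hq (2 * (n + 1) + 1) (n + 1 + 1 + j) = Hq (2 * n + 1) (n + 1 + j) * (2 * (2 * j - 2 * n - 1)) / (2 * n + 2) *
      (2 * (2 * n + 2 * j + 3)) / (2 * n + 3) := by
    rw [show n + 1 + 1 + j = n + 1 + j + 1 by ring, Hq_succ', h1]
    push_cast
    congr 1
    · congr 1
      ring
    · ring
  have h3 : Hq (2 * (n + 1)) (n + 1 + (j + 1)) = Hq (2 * n + 1) (n + 1 + j) * (2 * (2 * n + 2 * j + 3)) / (2 * n + 2) := by
    rw [show 2 * (n + 1) = 2 * n + 1 + 1 by ring, show n + 1 + (j + 1) = n + 1 + j + 1 by ring, Hq_succ']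
    push_cast
    congr 1
    · congr 1
      ring
    · ring
  have hn : ((n : ℚ) + 1) ≠ 0 := by positivity
  have hn0 : ((n : ℚ) + 1 + 1) ≠ 0 := by positivity
  have hn1 : (2 * (n : ℚ) + 1) ≠ 0 := by positivity
  have hn2 : (2 * (n : ℚ) + 2) ≠ 0 := by positivity
  have hn3 : (2 * (n : ℚ) + 3) ≠ 0 := by positivity
  have hn4 : (2 * (n : ℚ) + 4) ≠ 0 := by positivity
  unfold gF fF
  rw [c_succ, a1, a2, a3, h1, h2, h3]
  generalize Hq (2 * n + 1) (n + 1 + j) = Y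
  generalize (((2 * (n + 1) + 2).choose (n + 1 + 2 + 2 * j) : ℕ) : ℚ) = Z
  generalize c n = C
  push_cast
  field_simp
  ring

/-! ### closed forms -/

theorem fG_zero (n : ℕ) : fG n 0 = (168 * (n : ℚ) ^ 3 + 76 * n ^ 2 + 14 * n + 1) * c n ^ 7 := by
  unfold fG
  rw [Nat.mul_zero, Nat.add_zero, Hq_mid]
  have hs : ((-1 : ℚ) ^ n) * (-1) ^ n = 1 := by rw [← mul_pow]; norm_num
  have h1 : (((2 * n).choose n : ℕ) : ℚ) = c n := rfl
  rw [h1]
  push_cast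
  linear_combination (6 * (n : ℚ) + 1) * (28 * (n : ℚ) ^ 2 + 8 * n + 1) * c n ^ 7 * hs

theorem fF_zero (n : ℕ) : fF n 0 = (21 * (n : ℚ) ^ 3 + 22 * n ^ 2 + 8 * n + 1) * c n ^ 7 := by
  unfold fF
  rw [Nat.mul_zero, Nat.add_zero, Hq_mid]
  have hs : ((-1 : ℚ) ^ n) * (-1) ^ n = 1 := by rw [← mul_pow]; norm_num
  have h1 : (((2 * n).choose n : ℕ) : ℚ) = c n := rfl
  rw [h1]
  push_cast
  linear_combination (3 * (n : ℚ) + 1) * (7 * (n : ℚ) ^ 2 + 5 * n + 1) * c n ^ 7 * hs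

theorem closedG {S : ℕ → ℚ} (h0 : S 0 = 0)
    (hS : ∀ n, S (n + 1) = 2 ^ 20 * S n + (168 * (n : ℚ) ^ 3 + 76 * n ^ 2 + 14 * n + 1) * c n ^ 7) (n : ℕ) :
    S (n + 1) = ∑ j ∈ range (n + 1), gG n j := by
  refine closedL (m := 2 ^ 20) (F := fG) (w := fun n => (168 * (n : ℚ) ^ 3 + 76 * n ^ 2 + 14 * n + 1) * c n ^ 7)
    (fun n => n + 1) (fun n => by omega) wzG hS (fun n => fG_zero (n + 1)) (fun n => ?_) (fun n j hj => ?_) ?_ n
  · unfold fG
    rw [Nat.choose_eq_zero_of_lt (by omega)]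
    simp
  · unfold gG
    rw [Nat.choose_eq_zero_of_lt (by omega)]
    simp
  · rw [hS, h0]
    norm_num [gG, c, Hq]

theorem closedF {S : ℕ → ℚ} (h0 : S 0 = 0)
    (hS : ∀ n, S (n + 1) = 256 * S n + (21 * (n : ℚ) ^ 3 + 22 * n ^ 2 + 8 * n + 1) * c n ^ 7) (n : ℕ) :
    S (n + 1) = ∑ j ∈ range (n + 1), gF n j := by
  refine closedL (m := 256) (F := fF) (w := fun n => (21 * (n : ℚ) ^ 3 + 22 * n ^ 2 + 8 * n + 1) * c n ^ 7)
    (fun n => n + 1) (fun n => by omega) wzF hS (fun n => fF_zero (n + 1)) (fun n => ?_) (fun n j hj => ?_) ?_ n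
  · unfold fF
    rw [Nat.choose_eq_zero_of_lt (by omega)]
    simp
  · unfold gF
    rw [Nat.choose_eq_zero_of_lt (by omega)]
    simp
  · rw [hS, h0]
    norm_num [gF, c, Hq]

/-! ### odd part -/

theorem gG_int (n j : ℕ) : ∃ z : ℤ, gG n j = (2 * (n : ℚ) + 1) ^ 3 * c n ^ 3 * z := by
  have hN : (2 * (n : ℚ) + 1) ≠ 0 := by positivity
  have h1 : (2 * (j : ℚ) + 1) * ((2 * n + 1).choose (n + 1 + j) : ℚ) =
      (2 * n + 1) * (((2 * n).choose (n + j) : ℚ) - ((2 * n).choose (n + 1 + j) : ℚ)) := by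
    have e1 := chB (2 * n) (n + j)
    have e2 := chA (2 * n) (n + 1 + j)
    rw [show n + j + 1 = n + 1 + j by ring] at e1
    rw [e1, e2]
    push_cast
    field_simp
    ring
  refine ⟨(((2 * n).choose (n + j) : ℤ) - ((2 * n).choose (n + 1 + j) : ℤ)) * ((2 * n + 1).choose (n + 1 + j) : ℤ) *
    Hz (2 * n) (n + 1 + 2 * j) ^ 2, ?_⟩
  unfold gG
  push_cast
  rw [Hz_eq]
  linear_combination (2 * (n : ℚ) + 1) ^ 2 * c n ^ 3 * ((2 * n + 1).choose (n + 1 + j) : ℚ) *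
    Hq (2 * n) (n + 1 + 2 * j) ^ 2 * h1

theorem gF_int (n j : ℕ) : ∃ z : ℤ, 4 * gF n j = (2 * (n : ℚ) + 1) ^ 3 * c n ^ 3 * z := by
  have hN : ((n : ℚ) + 1) ≠ 0 := by positivity
  have hN2 : (2 * (n : ℚ) + 2) ≠ 0 := by positivity
  have h1 : (2 * (j : ℚ) + 1) * ((2 * n + 2).choose (n + 2 + 2 * j) : ℚ) =
      (n + 1) * (((2 * n + 1).choose (n + 1 + 2 * j) : ℚ) - ((2 * n + 1).choose (n + 2 + 2 * j) : ℚ)) := by
    have e1 := chB (2 * n + 1) (n + 1 + 2 * j)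
    have e2 := chA (2 * n + 1) (n + 2 + 2 * j)
    rw [show n + 1 + 2 * j + 1 = n + 2 + 2 * j by ring, show 2 * n + 1 + 1 = 2 * n + 2 by ring] at e1
    rw [show 2 * n + 1 + 1 = 2 * n + 2 by ring] at e2
    rw [e1, e2]
    push_cast
    field_simp
    ring
  refine ⟨(((2 * n + 1).choose (n + 1 + 2 * j) : ℤ) - ((2 * n + 1).choose (n + 2 + 2 * j) : ℤ)) *
    ((2 * n + 2).choose (n + 2 + 2 * j) : ℤ) * Hz (2 * n + 1) (n + 1 + j) ^ 2, ?_⟩
  unfold gF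
  push_cast
  rw [Hz_eq]
  field_simp
  linear_combination c n ^ 3 * ((2 * n + 2).choose (n + 2 + 2 * j) : ℚ) * Hq (2 * n + 1) (n + 1 + j) ^ 2 * h1

theorem sum_int {g : ℕ → ℚ} {K : ℚ} (h : ∀ j, ∃ z : ℤ, g j = K * z) (s : Finset ℕ) :
    ∃ z : ℤ, ∑ j ∈ s, g j = K * z := by
  choose z hz using h
  refine ⟨∑ j ∈ s, z j, ?_⟩
  push_cast
  rw [mul_sum]
  exact sum_congr rfl fun j _ => hz j

/-! ### 2-part -/

theorem two_part7 {κ : ℤ → ℤ} {m : ℤ} (hm : 8 ∣ m) {S : ℕ → ℤ}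
    (hS : ∀ n, S (n + 1) = m * S n + κ n * ((2 * n).choose n : ℤ) ^ 7)
    (h2 : 128 ∣ S 2) (n : ℕ) :
    ∃ o : ℤ, Odd o ∧ 16 * ((2 * (n + 1)).choose (n + 1) : ℤ) ^ 3 ∣ o * S (n + 2) := by
  induction n with
  | zero =>
    refine ⟨1, odd_one, ?_⟩
    have : ((2 * (0 + 1)).choose (0 + 1) : ℤ) = 2 := by norm_num
    rw [this]
    simpa using h2
  | succ n ih =>
    obtain ⟨o, ho, z, hz⟩ := ih
    obtain ⟨m', rfl⟩ := hm
    have hcen : ((n : ℤ) + 2) * ((2 * (n + 2)).choose (n + 2) : ℤ) =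
        2 * (2 * n + 3) * ((2 * (n + 1)).choose (n + 1) : ℤ) := by
      have := central (n + 1)
      have h' : (((n + 1 + 1) * (2 * (n + 1 + 1)).choose (n + 1 + 1) : ℕ) : ℤ) =
        ((2 * (2 * (n + 1) + 1) * (2 * (n + 1)).choose (n + 1) : ℕ) : ℤ) := by rw [this]
      push_cast at h'
      linear_combination h'
    obtain ⟨u, hu⟩ := two_dvd (n := n + 2) (by omega)
    have hu' : ((2 * (n + 2)).choose (n + 2) : ℤ) = 2 * u := by exact_mod_cast hu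
    refine ⟨o * (2 * n + 3) ^ 3, ho.mul (Odd.pow ⟨n + 1, by ring⟩),
      z * m' * (n + 2) ^ 3 + o * (2 * n + 3) ^ 3 * κ (n + 2) * u ^ 4, ?_⟩
    have h2 := hS (n + 2)
    rw [show n + 1 + 1 = n + 2 by ring, show n + 1 + 2 = n + 2 + 1 by ring, h2]
    have hc3 : (((n : ℤ) + 2) * ((2 * (n + 2)).choose (n + 2) : ℤ)) ^ 3 =
        (2 * (2 * n + 3) * ((2 * (n + 1)).choose (n + 1) : ℤ)) ^ 3 := by rw [hcen]
    have hu4 : ((2 * (n + 2)).choose (n + 2) : ℤ) ^ 4 = 16 * u ^ 4 := by rw [hu']; ring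
    push_cast
    linear_combination 8 * m' * (2 * n + 3) ^ 3 * hz - 16 * z * m' * hc3 +
      o * (2 * n + 3) ^ 3 * κ (n + 2) * ((2 * (n + 2)).choose (n + 2) : ℤ) ^ 3 * hu4

theorem combine {A C S o : ℤ} (hA : Odd A) (ho : Odd o) (hC : C ≠ 0) (h1 : A * C ∣ 4 * S) (h2 : 16 * C ∣ o * S) :
    16 * (A * C) ∣ S := by
  have c4 : IsCoprime o 4 := by
    have : IsCoprime o (2 ^ 2) := IsCoprime.pow_right (Int.isCoprime_iff_gcd_eq_one.mpr (by
      rcases ho with ⟨k, rfl⟩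
      have : Int.gcd (2 * k + 1) 2 = 1 := by
        rw [← Int.isCoprime_iff_gcd_eq_one]
        exact ⟨1, -k, by ring⟩
      exact this))
    norm_num at this
    exact this
  have c16 : IsCoprime 16 o := by
    have : IsCoprime o (4 ^ 2) := c4.pow_right
    norm_num at this
    exact this.symm
  have hCS : C ∣ S := by
    obtain ⟨a, b, hab⟩ := c4
    have e : S = a * (o * S) + b * (4 * S) := by linear_combination (-S) * hab
    rw [e]
    exact dvd_add (Dvd.dvd.mul_left ((Dvd.intro_left _ rfl).trans h2) _)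
      (Dvd.dvd.mul_left ((Dvd.intro_left _ rfl).trans h1) _)
  obtain ⟨s, rfl⟩ := hCS
  have h3 : A ∣ 4 * s := by
    have : C * A ∣ C * (4 * s) := by convert h1 using 1 <;> ring
    exact (mul_dvd_mul_iff_left hC).mp this
  have h4 : 16 ∣ o * s := by
    have : C * 16 ∣ C * (o * s) := by convert h2 using 1 <;> ring
    exact (mul_dvd_mul_iff_left hC).mp this
  have h5 : 16 ∣ s := c16.dvd_of_dvd_mul_left h4
  have cA : IsCoprime A 4 := by
    have : IsCoprime A (2 ^ 2) := IsCoprime.pow_right (by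
      rcases hA with ⟨k, rfl⟩
      exact ⟨1, -k, by ring⟩)
    norm_num at this
    exact this
  have h6 : A ∣ s := cA.dvd_of_dvd_mul_left h3
  have c16A : IsCoprime 16 A := by
    have : IsCoprime A (4 ^ 2) := cA.pow_right
    norm_num at this
    exact this.symm
  have h7 : 16 * A ∣ s := c16A.mul_dvd h5 h6
  obtain ⟨t, rfl⟩ := h7
  exact ⟨t, by ring⟩

/-- the general step from the closed form to the divisibility -/
theorem final {κ : ℤ → ℤ} {m : ℤ} (hm : 8 ∣ m) {S : ℕ → ℤ}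
    (hS : ∀ n, S (n + 1) = m * S n + κ n * ((2 * n).choose n : ℤ) ^ 7) (h2 : 128 ∣ S 2)
    (hI : ∀ n : ℕ, ∃ z : ℤ, 4 * (S (n + 1) : ℚ) = (2 * (n : ℚ) + 1) ^ 3 * c n ^ 3 * z) {n : ℕ} (hn : 1 < n) :
    2 * (n : ℤ) ^ 3 * ((2 * n).choose n : ℤ) ^ 3 ∣ S n := by
  obtain ⟨k, rfl⟩ : ∃ k, n = k + 2 := ⟨n - 2, by omega⟩
  obtain ⟨o, ho, h3⟩ := two_part7 hm hS h2 k
  obtain ⟨z, hz⟩ := hI (k + 1)
  have h4 : (2 * ((k + 1 : ℕ) : ℤ) + 1) ^ 3 * ((2 * (k + 1)).choose (k + 1) : ℤ) ^ 3 ∣ 4 * S (k + 2) := by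
    refine ⟨z, ?_⟩
    unfold c at hz
    exact_mod_cast hz
  have h5 := combine (A := (2 * ((k + 1 : ℕ) : ℤ) + 1) ^ 3) (C := ((2 * (k + 1)).choose (k + 1) : ℤ) ^ 3)
    (Odd.pow ⟨_, rfl⟩) ho (pow_ne_zero _ (by exact_mod_cast (choose_pos' (k + 1)).ne')) h4 h3
  convert h5 using 1
  have := central (k + 1)
  have h' : (((k + 1 + 1) * (2 * (k + 1 + 1)).choose (k + 1 + 1) : ℕ) : ℤ) ^ 3 =
    ((2 * (2 * (k + 1) + 1) * (2 * (k + 1)).choose (k + 1) : ℕ) : ℤ) ^ 3 := by rw [this]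
  push_cast at h' ⊢
  rw [show k + 1 + 1 = k + 2 by ring] at h'
  linear_combination 2 * h'

end V11307.S7
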